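import Pool.Agent.Helper536.LK.St
import Pool.Agent.Helper536.LK.MFin
import Pool.Agent.Helper536.LK.AllA
import Pool.Agent.Y13.KB.Dim

/-! Complete Kaehler manifolds diffeomorphic to Euclidean space without nonconstant holomorphic
functions, in every complex dimension `n ≥ 2^40 + 19`. -/

open Bundle Manifold Pool.Agent.Helper536.LK Pool.Agent.Helper536.LK.St
open scoped ContDiff Manifold

namespace Pool.Agent.Results.MP_64e65e_gt.EveryLargeDimension

theorem kallin_all (n : ℕ) (hn : 2 ^ 40 + 18 ≤ n) : Kallin n := by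
  obtain ⟨k, c, q, ρ, Λ, hρ, h1, h2, h3⟩ := Pool.Agent.Y13.KB.bad_all n hn
  refine ⟨k, c, fun _ => 1, q, Λ, fun _ => one_pos, ?_, ?_, ?_⟩
  · intro i j hij
    have h := (disjoint_closedBall_closedBall_iff zero_le_one zero_le_one).1 (h1 i j hij)
    rwa [dist_eq_norm] at h
  · intro i
    by_contra hcon
    exact Set.disjoint_left.1 (h2 i) (Metric.mem_closedBall_self hρ.le)
      (by rw [Metric.mem_closedBall, dist_eq_norm]; exact not_lt.1 hcon)
  · intro f hf
    obtain ⟨i, y, hy, h⟩ := h3 f hf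
    refine ⟨i, y, ?_, h q (Metric.mem_closedBall_self hρ.le)⟩
    rwa [Metric.mem_closedBall, dist_eq_norm] at hy

/-- For **every** `n ≥ 2^40 + 19` there is a complete Kaehler manifold `M` of complex dimension `n`,
diffeomorphic to `ℝ^{2n}`, on which every holomorphic function is constant. -/
theorem result (n : ℕ) (hn : 2 ^ 40 + 19 ≤ n) : ∃ (E : Type) (_ : NormedAddCommGroup E)
    (_ : NormedSpace ℂ E) (_ : NormedSpace ℝ E) (_ : IsScalarTower ℝ ℂ E) (M : Type)
    (_ : MetricSpace M) (_ : ChartedSpace E M),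
    Module.finrank ℂ E = n ∧ CompleteSpace M ∧ KaehlerDist E M ∧
    DiffeoTo E M (EuclideanSpace ℝ (Fin (2 * n))) ∧
    ∀ f : M → ℂ, MDifferentiable 𝓘(ℂ, E) 𝓘(ℂ, ℂ) f → ∃ c : ℂ, ∀ x, f x = c := by
  obtain ⟨m, rfl⟩ : ∃ m, n = m + 1 := ⟨n - 1, by omega⟩
  have hK : Kallin m := kallin_all m (by omega)
  have hE : Module.finrank ℂ (EuclideanSpace ℂ (Fin (m + 1))) = m + 1 := by simp
  obtain ⟨T⟩ := tower_exists hK hE
  obtain ⟨M, i1, i2, i3, i4, i5, i6, i7, h1, h2, h3, h4⟩ := final_T T (m + 1) hE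
  have h2' : St.IsKaehler (EuclideanSpace ℂ (Fin (m + 1))) M := by
    exact ⟨h2.hermitian, h2.smooth, fun x₀ => h2.closed x₀⟩
  exact ⟨EuclideanSpace ℂ (Fin (m + 1)), inferInstance, inferInstance,
    NormedSpace.complexToReal, inferInstance, M, i1, i2, hE, h1,
    ⟨i3, i4, i5, i6, i7, h2'⟩, h3, h4⟩

end Pool.Agent.Results.MP_64e65e_gt.EveryLargeDimension
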